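import Mathlib

/-!
# Füredi's stability theorem for cliques, in terms of ordered pairs
-/

set_option autoImplicit false

open Finset SimpleGraph

namespace Pool.Agent.Helper25_Dom

variable {α : Type*} [DecidableEq α] (G : SimpleGraph α) [DecidableRel G.Adj]

/-- **Füredi's stability**, localised to a finite set `S` containing no clique with `m + 1`
vertices. -/
theorem furedi (m : ℕ) : ∀ S : Finset α, (∀ s ⊆ S, ¬ G.IsNClique (m + 1) s) →
    ∃ χ : α → ℕ, (∀ x ∈ S, χ x < m) ∧
      #((S ×ˢ S).filter fun p => G.Adj p.1 p.2) +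
        #((S ×ˢ S).filter fun p => G.Adj p.1 p.2 ∧ χ p.1 = χ p.2) ≤
      #((S ×ˢ S).filter fun p => χ p.1 ≠ χ p.2) := by
  induction m with
  | zero =>
    intro S hS
    have : S = ∅ := by
      rw [eq_empty_iff_forall_notMem]
      intro x hx
      refine hS {x} (singleton_subset_iff.2 hx) ?_
      simp [isNClique_iff]
    subst this
    exact ⟨fun _ => 0, by simp, by simp⟩
  | succ m ih =>
    intro S hS
    rcases S.eq_empty_or_nonempty with rfl | hne
    · exact ⟨fun _ => 0, by simp, by simp⟩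
    obtain ⟨x₁, hx₁, hmax⟩ := exists_max_image S (fun x => #(S.filter fun y => G.Adj x y)) hne
    set S' := S.filter fun y => G.Adj x₁ y with hS'
    have hS'S : S' ⊆ S := filter_subset _ _
    obtain ⟨χ', hχ', hle⟩ := ih S' (by
      intro s hs hcl
      refine hS (insert x₁ s) (insert_subset hx₁ (hs.trans hS'S)) ?_
      exact hcl.insert fun b hb => (mem_filter.1 (hs hb)).2)
    set V₁ := S \ S' with hV₁
    have hS_eq : S = S' ∪ V₁ := by rw [hV₁, union_sdiff_of_subset hS'S]
    have hdisj : Disjoint S' V₁ := disjoint_sdiff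
    let χ : α → ℕ := fun x => if x ∈ S' then χ' x else m
    have hχS' : ∀ x ∈ S', χ x = χ' x := fun x hx => by simp [χ, hx]
    have hχV₁ : ∀ x ∈ V₁, χ x = m := fun x hx => by
      have : x ∉ S' := (mem_sdiff.1 hx).2
      simp [χ, this]
    refine ⟨χ, ?_, ?_⟩
    · intro x hx
      by_cases h : x ∈ S'
      · rw [hχS' x h]
        exact (hχ' x h).trans (Nat.lt_succ_self m)
      · rw [hχV₁ x (mem_sdiff.2 ⟨hx, h⟩)]
        exact Nat.lt_succ_self m
    -- general splitting of a sum over `S ×ˢ S`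
    have hsplit : ∀ p : α × α → Prop, ∀ [DecidablePred p],
        #((S ×ˢ S).filter p) = #((S' ×ˢ S').filter p) + #((S' ×ˢ V₁).filter p) +
          #((V₁ ×ˢ S').filter p) + #((V₁ ×ˢ V₁).filter p) := by
      intro p _
      have h1 : S ×ˢ S = ((S' ×ˢ S') ∪ (S' ×ˢ V₁)) ∪ ((V₁ ×ˢ S') ∪ (V₁ ×ˢ V₁)) := by
        conv_lhs => rw [hS_eq]
        rw [union_product, product_union, product_union]
      rw [h1, filter_union, filter_union, filter_union, card_union_of_disjoint,
        card_union_of_disjoint, card_union_of_disjoint]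
      · ring
      · exact disjoint_filter_filter (disjoint_product.2 (Or.inr hdisj))
      · exact disjoint_filter_filter (disjoint_product.2 (Or.inr hdisj))
      · rw [disjoint_union_left, disjoint_union_right, disjoint_union_right]
        refine ⟨⟨?_, ?_⟩, ⟨?_, ?_⟩⟩ <;>
        exact disjoint_filter_filter (disjoint_product.2 (Or.inl hdisj))
    rw [hsplit, hsplit, hsplit]
    -- the parts inside `S'`
    have e1 : #((S' ×ˢ S').filter fun p => G.Adj p.1 p.2 ∧ χ p.1 = χ p.2) =
        #((S' ×ˢ S').filter fun p => G.Adj p.1 p.2 ∧ χ' p.1 = χ' p.2) := by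
      congr 1
      apply filter_congr
      rintro ⟨x, y⟩ h
      rw [mem_product] at h
      simp only [hχS' x h.1, hχS' y h.2]
    have e2 : #((S' ×ˢ S').filter fun p => χ p.1 ≠ χ p.2) =
        #((S' ×ˢ S').filter fun p => χ' p.1 ≠ χ' p.2) := by
      congr 1
      apply filter_congr
      rintro ⟨x, y⟩ h
      rw [mem_product] at h
      simp only [hχS' x h.1, hχS' y h.2]
    have e3 : #((S' ×ˢ V₁).filter fun p => G.Adj p.1 p.2 ∧ χ p.1 = χ p.2) = 0 := by
      rw [card_eq_zero, filter_eq_empty_iff]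
      rintro ⟨x, y⟩ h ⟨_, h2⟩
      rw [mem_product] at h
      simp only at h h2
      rw [hχS' x h.1, hχV₁ y h.2] at h2
      exact absurd h2 (hχ' x h.1).ne
    have e4 : #((V₁ ×ˢ S').filter fun p => G.Adj p.1 p.2 ∧ χ p.1 = χ p.2) = 0 := by
      rw [card_eq_zero, filter_eq_empty_iff]
      rintro ⟨x, y⟩ h ⟨_, h2⟩
      rw [mem_product] at h
      simp only at h h2
      rw [hχS' y h.2, hχV₁ x h.1] at h2
      exact absurd h2.symm (hχ' y h.2).ne
    have e5 : #((S' ×ˢ V₁).filter fun p => χ p.1 ≠ χ p.2) = #S' * #V₁ := by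
      rw [← card_product]
      congr 1
      rw [filter_eq_self]
      rintro ⟨x, y⟩ h
      rw [mem_product] at h
      simp only [hχS' x h.1, hχV₁ y h.2]
      exact (hχ' x h.1).ne
    have e6 : #((V₁ ×ˢ S').filter fun p => χ p.1 ≠ χ p.2) = #V₁ * #S' := by
      rw [← card_product]
      congr 1
      rw [filter_eq_self]
      rintro ⟨x, y⟩ h
      rw [mem_product] at h
      simp only [hχS' y h.2, hχV₁ x h.1]
      exact (hχ' y h.2).ne'
    have e7 : #((V₁ ×ˢ V₁).filter fun p => G.Adj p.1 p.2 ∧ χ p.1 = χ p.2) =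
        #((V₁ ×ˢ V₁).filter fun p => G.Adj p.1 p.2) := by
      congr 1
      apply filter_congr
      rintro ⟨x, y⟩ h
      rw [mem_product] at h
      simp only [hχV₁ x h.1, hχV₁ y h.2, and_true]
    have e8 : #((S' ×ˢ V₁).filter fun p => G.Adj p.1 p.2) =
        #((V₁ ×ˢ S').filter fun p => G.Adj p.1 p.2) := by
      refine card_bij (fun p _ => (p.2, p.1)) ?_ ?_ ?_
      · rintro ⟨x, y⟩ h
        rw [mem_filter, mem_product] at h ⊢
        exact ⟨⟨h.1.2, h.1.1⟩, h.2.symm⟩
      · rintro ⟨x, y⟩ _ ⟨x', y'⟩ _ h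
        simp only [Prod.mk.injEq] at h ⊢
        exact ⟨h.2, h.1⟩
      · rintro ⟨x, y⟩ h
        rw [mem_filter, mem_product] at h
        exact ⟨(y, x), by rw [mem_filter, mem_product]; exact ⟨⟨h.1.2, h.1.1⟩, h.2.symm⟩, rfl⟩
    -- degrees of vertices of `V₁`
    have e9 : #((V₁ ×ˢ S').filter fun p => G.Adj p.1 p.2) +
        #((V₁ ×ˢ V₁).filter fun p => G.Adj p.1 p.2) ≤ #V₁ * #S' := by
      have h1 : #((V₁ ×ˢ S').filter fun p => G.Adj p.1 p.2) +
          #((V₁ ×ˢ V₁).filter fun p => G.Adj p.1 p.2) =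
          ∑ x ∈ V₁, #(S.filter fun y => G.Adj x y) := by
        rw [← card_union_of_disjoint
          (disjoint_filter_filter (disjoint_product.2 (Or.inr hdisj))), ← filter_union,
          ← product_union, ← hS_eq, card_filter, sum_product]
        refine sum_congr rfl fun x _ => ?_
        rw [card_filter]
      rw [h1]
      calc ∑ x ∈ V₁, #(S.filter fun y => G.Adj x y) ≤ ∑ x ∈ V₁, #S' :=
            sum_le_sum fun x hx => hmax x (mem_sdiff.1 hx).1
        _ = #V₁ * #S' := by rw [sum_const, smul_eq_mul]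
    rw [e1, e2, e3, e4, e5, e6, e7, e8]
    have e10 : #S' * #V₁ = #V₁ * #S' := mul_comm _ _
    omega

end Pool.Agent.Helper25_Dom
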