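import Mathlib

/-!
# Clique counting and the clique removal lemma
-/

set_option autoImplicit false

open Finset SimpleGraph SzemerediRegularity

namespace Pool.Agent.Helper25_Dom

section Count

variable {α : Type*} [DecidableEq α] (G : SimpleGraph α) [DecidableRel G.Adj]

/-- neighbourhood of `x` inside `U` -/
def nb (x : α) (U : Finset α) : Finset α := U.filter (fun y => G.Adj x y)

/-- cliques with one vertex in each `U i` -/
def tc : (r : ℕ) → (Fin r → Finset α) → Finset (Finset α)
  | 0, _ => {∅}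
  | r + 1, U => (U 0).biUnion fun x => (tc r (fun j => nb G x (U j.succ))).image (insert x)

theorem tc_sub (r : ℕ) : ∀ (U : Fin r → Finset α) (s : Finset α), s ∈ tc G r U →
    ∀ x ∈ s, ∃ i, x ∈ U i := by
  induction r with
  | zero =>
    intro U s hs x hx
    simp only [tc, mem_singleton] at hs
    rw [hs] at hx
    simp at hx
  | succ r ih =>
    intro U s hs x hx
    simp only [tc, mem_biUnion, mem_image] at hs
    obtain ⟨y, hy, t, ht, rfl⟩ := hs
    rw [mem_insert] at hx
    rcases hx with rfl | hx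
    · exact ⟨0, hy⟩
    · obtain ⟨i, hi⟩ := ih _ _ ht x hx
      exact ⟨i.succ, (mem_filter.1 hi).1⟩

theorem tc_clique (r : ℕ) : ∀ (U : Fin r → Finset α) (s : Finset α), s ∈ tc G r U →
    G.IsNClique r s := by
  induction r with
  | zero =>
    intro U s hs
    simp only [tc, mem_singleton] at hs
    rw [hs]
    simp [isNClique_iff]
  | succ r ih =>
    intro U s hs
    simp only [tc, mem_biUnion, mem_image] at hs
    obtain ⟨y, hy, t, ht, rfl⟩ := hs
    refine (ih _ _ ht).insert ?_
    intro b hb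
    obtain ⟨i, hi⟩ := tc_sub G r _ _ ht b hb
    exact (mem_filter.1 hi).2

theorem card_tc_succ (r : ℕ) (U : Fin (r + 1) → Finset α)
    (hU : ∀ i j, i ≠ j → Disjoint (U i) (U j)) :
    #(tc G (r + 1) U) = ∑ x ∈ U 0, #(tc G r (fun j => nb G x (U j.succ))) := by
  have hnot : ∀ x ∈ U 0, ∀ y : α, ∀ s ∈ tc G r (fun j => nb G y (U j.succ)), x ∉ s := by
    intro x hx y s hs hxs
    obtain ⟨i, hi⟩ := tc_sub G r _ _ hs x hxs
    have h1 := (mem_filter.1 hi).1
    exact (Finset.disjoint_left.1 (hU 0 i.succ (Fin.succ_ne_zero i).symm)) hx h1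
  show #((U 0).biUnion fun x => (tc G r (fun j => nb G x (U j.succ))).image (insert x)) = _
  rw [card_biUnion]
  · refine sum_congr rfl fun x hx => ?_
    rw [card_image_of_injOn]
    intro s hs t ht hst
    have h1 := hnot x hx x s hs
    have h2 := hnot x hx x t ht
    have : (insert x s).erase x = (insert x t).erase x := by
      rw [show insert x s = insert x t from hst]
    rwa [erase_insert h1, erase_insert h2] at this
  · intro x hx y hy hxy
    show Disjoint _ _
    rw [Finset.disjoint_left]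
    intro s hs ht
    simp only [mem_image] at hs ht
    obtain ⟨s, hs, rfl⟩ := hs
    obtain ⟨t, ht, hst⟩ := ht
    have h1 : x ∈ insert y t := by rw [hst]; exact mem_insert_self x s
    rw [mem_insert] at h1
    rcases h1 with h1 | h1
    · exact hxy h1
    · exact hnot x hx y t ht h1

/-- one-sided regularity of a pair -/
def LR (ε d : ℝ) (U V : Finset α) : Prop :=
  ∀ A ⊆ U, ∀ B ⊆ V, ε * #U ≤ #A → ε * #V ≤ #B → d * #A * #B ≤ #(G.interedges A B)

variable {G}

omit [DecidableEq α] in
theorem LR.restrict {ε d : ℝ} (hd : 0 < d) (hε : 0 < ε) {U V U' V' : Finset α} (h : LR G ε d U V)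
    (hU : U' ⊆ U) (hV : V' ⊆ V) (hU' : d * #U ≤ #U') (hV' : d * #V ≤ #V') :
    LR G (ε / d) d U' V' := by
  intro A hA B hB h1 h2
  refine h A (hA.trans hU) B (hB.trans hV) (le_trans ?_ h1) (le_trans ?_ h2)
  · rw [div_mul_eq_mul_div, le_div_iff₀ hd]
    nlinarith
  · rw [div_mul_eq_mul_div, le_div_iff₀ hd]
    nlinarith

omit [DecidableEq α] in
theorem card_interedges_eq_sum (A B : Finset α) :
    #(G.interedges A B) = ∑ x ∈ A, #(nb G x B) := by
  unfold SimpleGraph.interedges Rel.interedges nb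
  rw [card_filter, sum_product]
  refine sum_congr rfl fun x _ => ?_
  rw [card_filter]

omit [DecidableEq α] in
/-- the vertices of `U` with few neighbours in `V` are few -/
theorem LR.bad {ε d : ℝ} (hε1 : ε ≤ 1) {U V : Finset α} (h : LR G ε d U V) (hU : U.Nonempty)
    (hε : 0 < ε) :
    (#(U.filter fun x => (#(nb G x V) : ℝ) < d * #V) : ℝ) < ε * #U := by
  by_contra hc
  push Not at hc
  set A := U.filter fun x => (#(nb G x V) : ℝ) < d * #V with hA
  have h1 := h A (filter_subset _ _) V Subset.rfl hc (by nlinarith [Nat.cast_nonneg (α := ℝ) #V])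
  rw [card_interedges_eq_sum] at h1
  have hApos : A.Nonempty := by
    rw [← card_pos]
    have : (0 : ℝ) < #A := lt_of_lt_of_le (by have := hU.card_pos; positivity) hc
    exact_mod_cast this
  have h2 : ((∑ x ∈ A, #(nb G x V) : ℕ) : ℝ) < ∑ x ∈ A, (d * #V : ℝ) := by
    push_cast
    refine sum_lt_sum_of_nonempty hApos fun x hx => ?_
    exact (mem_filter.1 hx).2
  rw [sum_const, nsmul_eq_mul] at h2
  nlinarith

/-- the constant in the counting lemma -/
noncomputable def cst (d : ℝ) : ℕ → ℝ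
  | 0 => 1
  | r + 1 => cst d r * d ^ r / 2

theorem cst_pos {d : ℝ} (hd : 0 < d) (r : ℕ) : 0 < cst d r := by
  induction r with
  | zero => simp [cst]
  | succ r ih =>
    unfold cst
    positivity

theorem count {d : ℝ} (hd : 0 < d) (hd1 : d ≤ 1) (r : ℕ) :
    ∀ (ε : ℝ), 0 < ε → ε ≤ d ^ r / (2 * (r + 1)) → ∀ U : Fin r → Finset α,
      (∀ i j, i ≠ j → LR G ε d (U i) (U j)) → (∀ i j, i ≠ j → Disjoint (U i) (U j)) →
      cst d r * ∏ i, (#(U i) : ℝ) ≤ #(tc G r U) := by
  induction r with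
  | zero =>
    intro ε _ _ U _ _
    simp [cst, tc]
  | succ r ih =>
    intro ε hε hεr U hLR hdisj
    rw [card_tc_succ G r U hdisj, Fin.prod_univ_succ]
    rcases (U 0).eq_empty_or_nonempty with h0 | h0
    · simp [h0]
    have hr0 : (0 : ℝ) ≤ r := Nat.cast_nonneg r
    have hdr : d ^ (r + 1) ≤ 1 := pow_le_one₀ hd.le hd1
    push_cast at hεr
    have hε1 : ε * (2 * (r + 2)) ≤ 1 := by
      rw [le_div_iff₀ (by positivity)] at hεr
      nlinarith
    have hε2 : ε ≤ 1 := by nlinarith
    -- good vertices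
    let good : Finset α := (U 0).filter fun x => ∀ j : Fin r, d * #(U j.succ) ≤ #(nb G x (U j.succ))
    have hgood : (#(U 0) : ℝ) / 2 ≤ #(good) := by
      have h1 : (U 0) \ good ⊆ (univ : Finset (Fin r)).biUnion fun j =>
          (U 0).filter fun x => (#(nb G x (U j.succ)) : ℝ) < d * #(U j.succ) := by
        intro x hx
        rw [mem_sdiff, mem_filter, not_and] at hx
        have := hx.2 hx.1
        push Not at this
        obtain ⟨j, hj⟩ := this
        rw [mem_biUnion]
        exact ⟨j, mem_univ _, mem_filter.2 ⟨hx.1, hj⟩⟩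
      have h2 : (#((U 0) \ good) : ℝ) ≤ r * (ε * #(U 0)) := by
        calc (#((U 0) \ good) : ℝ) ≤ ((∑ j : Fin r, #((U 0).filter fun x =>
              (#(nb G x (U j.succ)) : ℝ) < d * #(U j.succ)) : ℕ) : ℝ) := by
              exact_mod_cast (card_le_card h1).trans card_biUnion_le
          _ ≤ ∑ j : Fin r, (ε * #(U 0) : ℝ) := by
              push_cast
              refine sum_le_sum fun j _ => ?_
              exact (LR.bad hε2 (hLR 0 j.succ (Fin.succ_ne_zero j).symm) h0 hε).le
          _ = r * (ε * #(U 0)) := by simp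
      have h3 : #((U 0) \ good) + #(good) = #(U 0) := card_sdiff_add_card_eq_card (filter_subset _ _)
      have h3' : (#((U 0) \ good) : ℝ) + #(good) = #(U 0) := by exact_mod_cast h3
      have h4 : (0 : ℝ) ≤ #(U 0) := Nat.cast_nonneg _
      have h5 : r * ε ≤ 1 / 2 := by nlinarith
      nlinarith
    have hsub : good ⊆ U 0 := filter_subset _ _
    have hK : 0 ≤ cst d r * (d ^ r * ∏ j : Fin r, (#(U j.succ) : ℝ)) :=
      mul_nonneg (cst_pos hd r).le (mul_nonneg (pow_nonneg hd.le _)
        (prod_nonneg fun j _ => Nat.cast_nonneg _))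
    have hgx : ∀ x ∈ good, cst d r * (d ^ r * ∏ j : Fin r, (#(U j.succ) : ℝ)) ≤
        #(tc G r (fun j => nb G x (U j.succ))) := by
      intro x hx
      obtain ⟨hx0, hx1⟩ := mem_filter.1 hx
      refine le_trans ?_ (ih (ε / d) (by positivity) ?_ (fun j => nb G x (U j.succ)) ?_ ?_)
      · refine mul_le_mul_of_nonneg_left ?_ (cst_pos hd r).le
        calc d ^ r * ∏ j : Fin r, (#(U j.succ) : ℝ) = ∏ j : Fin r, (d * #(U j.succ) : ℝ) := by
              rw [prod_mul_distrib, prod_const, card_univ, Fintype.card_fin]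
          _ ≤ _ := prod_le_prod (fun j _ => by positivity) fun j _ => hx1 j
      · rw [div_le_iff₀ hd]
        refine hεr.trans ?_
        rw [pow_succ, div_mul_eq_mul_div]
        refine div_le_div_of_nonneg_left (by positivity) (by positivity) ?_
        linarith
      · intro i j hij
        refine (hLR i.succ j.succ (fun h => hij (Fin.succ_injective _ h))).restrict hd hε
          (filter_subset _ _) (filter_subset _ _) (hx1 i) (hx1 j)
      · intro i j hij
        exact (hdisj i.succ j.succ (fun h => hij (Fin.succ_injective _ h))).mono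
          (filter_subset _ _) (filter_subset _ _)
    calc cst d (r + 1) * ((#(U 0) : ℝ) * ∏ j : Fin r, (#(U j.succ) : ℝ))
        = (#(U 0) : ℝ) / 2 * (cst d r * (d ^ r * ∏ j : Fin r, (#(U j.succ) : ℝ))) := by
          rw [show cst d (r + 1) = cst d r * d ^ r / 2 from rfl]
          ring
      _ ≤ #(good) * (cst d r * (d ^ r * ∏ j : Fin r, (#(U j.succ) : ℝ))) := by
          exact mul_le_mul_of_nonneg_right hgood hK
      _ = ∑ x ∈ good, (cst d r * (d ^ r * ∏ j : Fin r, (#(U j.succ) : ℝ))) := by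
          rw [sum_const, nsmul_eq_mul]
      _ ≤ ∑ x ∈ good, (#(tc G r (fun j => nb G x (U j.succ))) : ℝ) := sum_le_sum hgx
      _ ≤ ∑ x ∈ U 0, (#(tc G r (fun j => nb G x (U j.succ))) : ℝ) :=
          sum_le_sum_of_subset_of_nonneg hsub fun x _ _ => Nat.cast_nonneg _
      _ = _ := by rw [Nat.cast_sum]

omit [DecidableEq α] in
theorem LR_of_isUniform {ε d : ℝ} (hε : ε ≤ d) {U V : Finset α}
    (h : G.IsUniform ε U V) (hdens : 2 * d ≤ (G.edgeDensity U V : ℝ)) : LR G ε d U V := by
  intro A hA B hB h1 h2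
  rcases A.eq_empty_or_nonempty with rfl | hA0
  · simp
  rcases B.eq_empty_or_nonempty with rfl | hB0
  · simp
  have h3 := h hA hB (by rwa [mul_comm]) (by rwa [mul_comm])
  have h4 := (abs_lt.1 h3).1
  have h5 : d ≤ (G.edgeDensity A B : ℝ) := by linarith
  rw [SimpleGraph.edgeDensity_def] at h5
  push_cast at h5
  have h6 : (0 : ℝ) < #A * #B := by
    have := hA0.card_pos
    have := hB0.card_pos
    positivity
  rw [le_div_iff₀ h6] at h5
  linarith

end Count

section Removal

variable {α : Type*} [DecidableEq α] [Fintype α] {G : SimpleGraph α} [DecidableRel G.Adj]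
  {P : Finpartition (univ : Finset α)}

/-- ordered pairs of adjacent vertices -/
def E2 {α : Type*} [Fintype α] (G : SimpleGraph α) [DecidableRel G.Adj] : ℕ :=
  #(univ.filter fun p : α × α => G.Adj p.1 p.2)

theorem E2_mono {α : Type*} [Fintype α] {G G' : SimpleGraph α} [DecidableRel G.Adj]
    [DecidableRel G'.Adj] (h : G ≤ G') : E2 G ≤ E2 G' :=
  card_le_card fun p hp => by
    simp only [mem_filter, mem_univ, true_and] at *
    exact h hp

theorem reduced_edges [Nonempty α] {ε ε₁ : ℝ} (hε : 0 < ε) (hε₁ : 0 < ε₁) (h1 : ε₁ ≤ ε / 8)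
    (hP : P.IsEquipartition) (hPε : P.IsUniform G ε₁) (hP' : 4 / ε ≤ #P.parts) :
    (E2 G : ℝ) - E2 (G.regularityReduced P ε₁ (ε / 4)) < 2 * ε * (Fintype.card α) ^ 2 := by
  let A := (P.nonUniforms G ε₁).biUnion fun (U, V) ↦ U ×ˢ V
  let B := P.parts.biUnion offDiag
  let C := (P.sparsePairs G (ε / 4)).biUnion fun (U, V) ↦ G.interedges U V
  have hsub : (univ.filter fun p : α × α => G.Adj p.1 p.2) ⊆
      (univ.filter fun p : α × α => (G.regularityReduced P ε₁ (ε / 4)).Adj p.1 p.2) ∪
        (A ∪ B ∪ C) := by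
    rintro ⟨x, y⟩ hxy
    rw [mem_filter] at hxy
    have h := hxy.2
    simp only at h
    rw [mem_union]
    by_cases h' : (G.regularityReduced P ε₁ (ε / 4)).Adj x y
    · left
      rw [mem_filter]
      exact ⟨mem_univ _, h'⟩
    right
    obtain ⟨U, hU, hx⟩ := P.exists_mem (mem_univ x)
    obtain ⟨V, hV, hy⟩ := P.exists_mem (mem_univ y)
    rw [mem_union, mem_union]
    by_cases hUV : U = V
    · left; right
      subst hUV
      exact mem_biUnion.2 ⟨U, hU, mem_offDiag.2 ⟨hx, hy, G.ne_of_adj h⟩⟩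
    by_cases h₂ : G.IsUniform ε₁ U V
    · right
      refine mem_biUnion.2 ⟨(U, V), ?_, ?_⟩
      · rw [Finpartition.mk_mem_sparsePairs]
        refine ⟨hU, hV, hUV, ?_⟩
        by_contra hc
        push Not at hc
        exact h' ⟨h, U, hU, V, hV, hx, hy, hUV, h₂, hc⟩
      · show (x, y) ∈ G.interedges U V
        rw [mem_interedges_iff]
        exact ⟨hx, hy, h⟩
    · left; left
      refine mem_biUnion.2 ⟨(U, V), ?_, ?_⟩
      · rw [Finpartition.mk_mem_nonUniforms]
        exact ⟨hU, hV, hUV, h₂⟩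
      · exact mem_product.2 ⟨hx, hy⟩
  have hA : (#A : ℝ) < 4 * ε₁ * (Fintype.card α) ^ 2 := by
    have := hP.sum_nonUniforms_lt univ_nonempty hε₁ hPε
    simpa using this
  have hB : (#B : ℝ) ≤ ε / 2 * (Fintype.card α) ^ 2 := by
    have := hP.card_biUnion_offDiag_le hε hP'
    simpa using this
  have hC : (#C : ℝ) ≤ 4 * (ε / 4) * (Fintype.card α) ^ 2 := by
    have := hP.card_interedges_sparsePairs_le (G := G) (ε := ε / 4) (by positivity)
    simpa using this
  have h2 : E2 G ≤ E2 (G.regularityReduced P ε₁ (ε / 4)) + (#A + #B + #C) :=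
    (card_le_card hsub).trans ((card_union_le _ _).trans (Nat.add_le_add_left
      ((card_union_le _ _).trans (Nat.add_le_add_right (card_union_le _ _) _)) _))
  have h3 : (E2 G : ℝ) ≤ E2 (G.regularityReduced P ε₁ (ε / 4)) + (#A + #B + #C) := by
    exact_mod_cast h2
  have h4 : (0 : ℝ) ≤ (Fintype.card α : ℝ) ^ 2 := by positivity
  nlinarith

theorem exists_count (r : ℕ) {ε₁ d c : ℝ} (hd : 0 < d) (hd1 : d ≤ 1) (hε₁ : 0 < ε₁)
    (hε₁' : ε₁ ≤ d ^ r / (2 * (r + 1))) (hε₁d : ε₁ ≤ d) (hc : 0 ≤ c)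
    (hsize : ∀ U ∈ P.parts, c ≤ #U)
    (h : ¬ (G.regularityReduced P ε₁ (2 * d)).CliqueFree r) :
    cst d r * c ^ r ≤ #(G.cliqueFinset r) := by
  unfold CliqueFree at h
  push Not at h
  obtain ⟨s, hs⟩ := h
  obtain ⟨hs1, hs2⟩ := hs
  let e := (s.equivFinOfCardEq hs2).symm
  have hne : ∀ i j : Fin r, i ≠ j → (e i : α) ≠ e j := fun i j hij h =>
    hij (e.injective (Subtype.ext h))
  have hadj : ∀ i j : Fin r, i ≠ j → (G.regularityReduced P ε₁ (2 * d)).Adj (e i) (e j) :=
    fun i j hij => hs1 (e i).2 (e j).2 (hne i j hij)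
  have hpart : ∀ i : Fin r, ∃ U ∈ P.parts, (e i : α) ∈ U := fun i => P.exists_mem (mem_univ _)
  choose U hU hmem using hpart
  have huniq : ∀ (i : Fin r) (W : Finset α), W ∈ P.parts → (e i : α) ∈ W → W = U i := by
    intro i W hW hiW
    exact P.disjoint.elim hW (hU i) (not_disjoint_iff.2 ⟨_, hiW, hmem i⟩)
  have hpair : ∀ i j : Fin r, i ≠ j → U i ≠ U j ∧ G.IsUniform ε₁ (U i) (U j) ∧
      2 * d ≤ (G.edgeDensity (U i) (U j) : ℝ) := by
    intro i j hij
    obtain ⟨-, W, hW, W', hW', h1, h2, h3, h4, h5⟩ := hadj i j hij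
    rw [huniq i W hW h1, huniq j W' hW' h2] at *
    exact ⟨h3, h4, h5⟩
  have hcount := count (G := G) hd hd1 r ε₁ hε₁ hε₁' U
    (fun i j hij => LR_of_isUniform hε₁d (hpair i j hij).2.1 (hpair i j hij).2.2)
    (fun i j hij => P.disjoint (hU i) (hU j) (hpair i j hij).1)
  have h1 : #(tc G r U) ≤ #(G.cliqueFinset r) := card_le_card fun t ht => by
    rw [mem_cliqueFinset_iff]
    exact tc_clique G r U t ht
  have h2 : (#(tc G r U) : ℝ) ≤ #(G.cliqueFinset r) := by exact_mod_cast h1
  refine le_trans ?_ (hcount.trans h2)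
  refine mul_le_mul_of_nonneg_left ?_ (cst_pos hd r).le
  calc c ^ r = ∏ _i : Fin r, c := by simp
    _ ≤ _ := prod_le_prod (fun _ _ => hc) fun i _ => hsize _ (hU i)

/-- **Clique removal lemma** -/
theorem removal (r : ℕ) (ε : ℝ) (hε : 0 < ε) :
    ∃ c : ℝ, 0 < c ∧ ∃ N : ℕ, ∀ n : ℕ, N ≤ n → ∀ (G : SimpleGraph (Fin n)) [DecidableRel G.Adj],
      (#(G.cliqueFinset r) : ℝ) < c * n ^ r →
      ∃ (G' : SimpleGraph (Fin n)) (_ : DecidableRel G'.Adj), G' ≤ G ∧ G'.CliqueFree r ∧
        (E2 G : ℝ) - E2 G' < ε * n ^ 2 := by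
  classical
  -- parameters
  set ε0 : ℝ := min (ε / 2) 1 with hε0
  have hε0pos : 0 < ε0 := lt_min (by linarith) one_pos
  have hε0le : ε0 ≤ 1 := min_le_right _ _
  set d : ℝ := ε0 / 8 with hd
  have hdpos : 0 < d := by positivity
  have hd1 : d ≤ 1 := by rw [hd]; linarith
  set ε₁ : ℝ := min (d ^ r / (2 * (r + 1))) d with hε₁
  have hε₁pos : 0 < ε₁ := lt_min (by positivity) hdpos
  let l : ℕ := ⌈4 / ε0⌉₊
  let M : ℕ := bound ε₁ l
  have hMpos : 0 < M := bound_pos _ _
  refine ⟨cst d r * (1 / (2 * M)) ^ r, ?_, max l (max 1 (2 * M)), ?_⟩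
  · have := cst_pos hdpos r
    positivity
  intro n hn G _ hG
  have hn1 : l ≤ n := (le_max_left _ _).trans hn
  have hn2 : 1 ≤ n := (le_max_left _ _).trans ((le_max_right _ _).trans hn)
  have hn3 : 2 * M ≤ n := (le_max_right _ _).trans ((le_max_right _ _).trans hn)
  have : Nonempty (Fin n) := ⟨⟨0, hn2⟩⟩
  obtain ⟨P, hP₁, hP₂, hP₃, hP₄⟩ := szemeredi_regularity G hε₁pos (l := l) (by simpa using hn1)
  have hl : 4 / ε0 ≤ #P.parts := (Nat.le_ceil _).trans (Nat.cast_le.2 hP₂)
  refine ⟨G.regularityReduced P ε₁ (2 * d), inferInstance, regularityReduced_le, ?_, ?_⟩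
  · by_contra hc
    have h1 : ∀ U ∈ P.parts, (n : ℝ) / (2 * M) ≤ #U := by
      intro U hU
      have h2 := hP₁.average_le_card_part hU
      simp only [card_univ, Fintype.card_fin] at h2
      have hpos : 0 < #P.parts := card_pos.2 ⟨U, hU⟩
      have h3 : n < #P.parts * (n / #P.parts) + #P.parts := by
        have := Nat.lt_div_mul_add hpos (a := n)
        rwa [mul_comm] at this
      have h4 : #P.parts * (n / #P.parts) ≤ #P.parts * #U := Nat.mul_le_mul_left _ h2
      have h5 : n < #P.parts * (#U + 1) := by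
        rw [mul_add, mul_one]; omega
      have h6 : n < M * (#U + 1) := lt_of_lt_of_le h5 (Nat.mul_le_mul_right _ hP₃)
      have h7 : 1 ≤ #U := by
        have h8 : 0 < #U := (P.nonempty_of_mem_parts hU).card_pos
        exact h8
      have h9 : n ≤ M * (2 * #U) := h6.le.trans (Nat.mul_le_mul_left _ (by omega))
      rw [div_le_iff₀ (by positivity)]
      have : (n : ℝ) ≤ M * (2 * #U) := by exact_mod_cast h9
      linarith
    have h2 := exists_count (G := G) (P := P) r hdpos hd1 hε₁pos (min_le_left _ _)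
      (min_le_right _ _) (c := (n : ℝ) / (2 * M)) (by positivity) h1 hc
    have h3 : cst d r * (1 / (2 * M)) ^ r * (n : ℝ) ^ r = cst d r * ((n : ℝ) / (2 * M)) ^ r := by
      rw [mul_assoc, ← mul_pow]
      ring_nf
    rw [h3] at hG
    exact absurd hG (not_lt.2 h2)
  · have h4 : 2 * d = ε0 / 4 := by rw [hd]; ring
    rw [h4]
    have h5 := reduced_edges (G := G) (P := P) hε0pos hε₁pos
      ((min_le_right _ _).trans (by rw [hd])) hP₁ hP₄ hl
    refine h5.trans_le ?_
    rw [Fintype.card_fin]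
    have : 2 * ε0 ≤ ε := by
      have := min_le_left (ε / 2) 1
      linarith
    exact mul_le_mul_of_nonneg_right this (by positivity)

end Removal

end Pool.Agent.Helper25_Dom
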