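import Mathlib
import Pool.Agent.Helper25_Dom.Removal
import Pool.Agent.Helper25_Dom.Furedi

/-!
# Cliques in graphs close to the Turán graph in which every edge lies in a clique
-/

set_option autoImplicit false

open Finset SimpleGraph

namespace Pool.Agent.Helper25_Dom

section

variable {n m : ℕ} (H G' : SimpleGraph (Fin n)) [DecidableRel H.Adj] [DecidableRel G'.Adj]
  (χ : Fin n → ℕ)

/-- the part with index `j` -/
def part (j : ℕ) : Finset (Fin n) := univ.filter fun x => χ x = j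

/-- missing pairs -/
def missing : Finset (Fin n × Fin n) := univ.filter fun p => χ p.1 ≠ χ p.2 ∧ ¬ G'.Adj p.1 p.2

/-- missing pairs at `x` -/
def missAt (x : Fin n) : Finset (Fin n) := univ.filter fun y => χ x ≠ χ y ∧ ¬ G'.Adj x y

/-- atypical vertices -/
noncomputable def atyp (δ : ℝ) : Finset (Fin n) :=
  univ.filter fun x => δ * n < #(missAt G' χ x)

/-- the number of ordered pairs in the same part -/
theorem same_eq (hχ : ∀ x, χ x < m) :
    #(univ.filter fun p : Fin n × Fin n => χ p.1 = χ p.2) = ∑ j ∈ range m, #(part χ j) ^ 2 := by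
  have h1 : (univ.filter fun p : Fin n × Fin n => χ p.1 = χ p.2) =
      (range m).biUnion fun j => part χ j ×ˢ part χ j := by
    ext ⟨x, y⟩
    simp only [mem_filter, mem_univ, true_and, mem_biUnion, mem_range, mem_product, part]
    constructor
    · intro h
      exact ⟨χ x, hχ x, rfl, h.symm⟩
    · rintro ⟨j, -, h1, h2⟩
      rw [h1, h2]
  rw [h1, card_biUnion]
  · refine sum_congr rfl fun j _ => ?_
    rw [card_product, sq]
  · intro i _ j _ hij
    show Disjoint _ _
    rw [Finset.disjoint_left]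
    rintro ⟨x, y⟩ h1 h2
    simp only [mem_product, part, mem_filter, mem_univ, true_and] at h1 h2
    exact hij (h1.1.symm.trans h2.1)

theorem sum_part (hχ : ∀ x, χ x < m) : ∑ j ∈ range m, #(part χ j) = n := by
  have h1 : (univ : Finset (Fin n)) = (range m).biUnion fun j => part χ j := by
    ext x
    simp only [mem_univ, true_iff, mem_biUnion, mem_range, part, mem_filter, true_and]
    exact ⟨χ x, hχ x, rfl⟩
  have h2 := congrArg card h1
  rw [card_biUnion, card_univ, Fintype.card_fin] at h2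
  · exact h2.symm
  · intro i _ j _ hij
    show Disjoint _ _
    rw [Finset.disjoint_left]
    intro x h1 h2
    simp only [part, mem_filter, mem_univ, true_and] at h1 h2
    exact hij (h1.symm.trans h2)

/-- the parts are balanced, there are few missing pairs, and few pairs inside the parts -/
theorem balanced (hm : 0 < m) {η : ℝ} (hχ : ∀ x, χ x < m)
    (hF : E2 G' + #(univ.filter fun p : Fin n × Fin n => G'.Adj p.1 p.2 ∧ χ p.1 = χ p.2) ≤
      #(univ.filter fun p : Fin n × Fin n => χ p.1 ≠ χ p.2))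
    (hE : (1 - 1 / m - η) * n ^ 2 ≤ E2 G') :
    (∀ j ∈ range m, ((#(part χ j) : ℝ) - n / m) ^ 2 ≤ η * n ^ 2) ∧
    (#(missing G' χ) : ℝ) ≤ 2 * η * n ^ 2 ∧
    (#(univ.filter fun p : Fin n × Fin n => G'.Adj p.1 p.2 ∧ χ p.1 = χ p.2) : ℝ) ≤ η * n ^ 2 := by
  set I := #(univ.filter fun p : Fin n × Fin n => G'.Adj p.1 p.2 ∧ χ p.1 = χ p.2) with hI
  set C := #(univ.filter fun p : Fin n × Fin n => χ p.1 ≠ χ p.2) with hC
  have h1 : #(univ.filter fun p : Fin n × Fin n => χ p.1 = χ p.2) + C = n ^ 2 := by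
    rw [hC, card_filter_add_card_filter_not, card_univ, Fintype.card_prod, Fintype.card_fin, sq]
  rw [same_eq χ hχ] at h1
  have h1' : (∑ j ∈ range m, (#(part χ j) : ℝ) ^ 2) + C = n ^ 2 := by exact_mod_cast h1
  have h2 : (∑ j ∈ range m, (#(part χ j) : ℝ)) = n := by exact_mod_cast sum_part χ hχ
  have hm' : (0 : ℝ) < m := by exact_mod_cast hm
  have h3 : ∑ j ∈ range m, ((#(part χ j) : ℝ) - n / m) ^ 2 = (1 - 1 / m) * n ^ 2 - C := by
    have : ∀ j, ((#(part χ j) : ℝ) - n / m) ^ 2 =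
        (#(part χ j) : ℝ) ^ 2 - (2 * n / m) * #(part χ j) + n ^ 2 / m ^ 2 := by
      intro j; ring
    simp_rw [this]
    rw [sum_add_distrib, sum_sub_distrib, ← mul_sum, h2, sum_const, card_range, nsmul_eq_mul]
    have h4 : (∑ j ∈ range m, (#(part χ j) : ℝ) ^ 2) = n ^ 2 - C := by linarith
    rw [h4]
    field_simp
    ring
  have h5 : 0 ≤ ∑ j ∈ range m, ((#(part χ j) : ℝ) - n / m) ^ 2 :=
    sum_nonneg fun j _ => sq_nonneg _
  have hF' : (E2 G' : ℝ) + I ≤ C := by exact_mod_cast hF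
  have hI0 : (0 : ℝ) ≤ I := Nat.cast_nonneg _
  have hI1 : (I : ℝ) ≤ η * n ^ 2 := by nlinarith
  refine ⟨?_, ?_, hI1⟩
  · intro j hj
    have h6 := single_le_sum (f := fun j => ((#(part χ j) : ℝ) - n / m) ^ 2)
      (fun i _ => sq_nonneg _) hj
    nlinarith
  · -- missing pairs
    have h7 : #(missing G' χ) + E2 G' ≤ C + I := by
      have h8 : #(univ.filter fun p : Fin n × Fin n => χ p.1 ≠ χ p.2 ∧ G'.Adj p.1 p.2) +
          #(missing G' χ) = C := by
        have := card_filter_add_card_filter_not (s := univ.filter fun p : Fin n × Fin n =>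
          χ p.1 ≠ χ p.2) (fun p : Fin n × Fin n => G'.Adj p.1 p.2)
        rw [filter_filter, filter_filter] at this
        exact this
      have h9 : E2 G' ≤ #(univ.filter fun p : Fin n × Fin n => χ p.1 ≠ χ p.2 ∧ G'.Adj p.1 p.2) +
          I := by
        unfold E2
        refine (card_le_card ?_).trans (card_union_le _ _)
        intro p hp
        rw [mem_filter] at hp
        rw [mem_union, mem_filter, mem_filter]
        by_cases h : χ p.1 = χ p.2
        · exact Or.inr ⟨mem_univ _, hp.2, h⟩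
        · exact Or.inl ⟨mem_univ _, h, hp.2⟩
      omega
    have h7' : (#(missing G' χ) : ℝ) + E2 G' ≤ C + I := by exact_mod_cast h7
    nlinarith

/-- the number of ordered pairs in different parts -/
theorem cross_le (hm : 0 < m) (hχ : ∀ x, χ x < m) :
    (#(univ.filter fun p : Fin n × Fin n => χ p.1 ≠ χ p.2) : ℝ) ≤ (1 - 1 / m) * n ^ 2 := by
  set C := #(univ.filter fun p : Fin n × Fin n => χ p.1 ≠ χ p.2) with hC
  have h1 : #(univ.filter fun p : Fin n × Fin n => χ p.1 = χ p.2) + C = n ^ 2 := by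
    rw [hC, card_filter_add_card_filter_not, card_univ, Fintype.card_prod, Fintype.card_fin, sq]
  rw [same_eq χ hχ] at h1
  have h1' : (∑ j ∈ range m, (#(part χ j) : ℝ) ^ 2) + C = n ^ 2 := by exact_mod_cast h1
  have h2 : (∑ j ∈ range m, (#(part χ j) : ℝ)) = n := by exact_mod_cast sum_part χ hχ
  have hm' : (0 : ℝ) < m := by exact_mod_cast hm
  have h3 := sq_sum_le_card_mul_sum_sq (s := range m) (f := fun j => (#(part χ j) : ℝ))
  rw [h2, card_range] at h3
  have h4 : (n : ℝ) ^ 2 / m ≤ ∑ j ∈ range m, (#(part χ j) : ℝ) ^ 2 := by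
    rw [div_le_iff₀ hm']
    linarith
  have h5 : (1 - 1 / (m : ℝ)) * n ^ 2 = n ^ 2 - n ^ 2 / m := by ring
  rw [h5]
  linarith

/-- Turán's theorem for ordered pairs -/
theorem turan_E2 (hm : 0 < m) (hfree : G'.CliqueFree (m + 1)) :
    (E2 G' : ℝ) ≤ (1 - 1 / m) * n ^ 2 := by
  obtain ⟨χ, hχ, hF⟩ := furedi G' m univ (fun s _ => hfree s)
  simp only [univ_product_univ, mem_univ, forall_const] at hF hχ
  have h1 := cross_le χ hm hχ
  have h2 : E2 G' ≤ #(univ.filter fun p : Fin n × Fin n => χ p.1 ≠ χ p.2) :=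
    (Nat.le_add_right _ _).trans hF
  have h3 : (E2 G' : ℝ) ≤ #(univ.filter fun p : Fin n × Fin n => χ p.1 ≠ χ p.2) := by
    exact_mod_cast h2
  exact h3.trans h1

theorem card_missing : #(missing G' χ) = ∑ x, #(missAt G' χ x) := by
  unfold missing missAt
  rw [card_filter, ← univ_product_univ, sum_product]
  refine sum_congr rfl fun x _ => ?_
  rw [card_filter]

theorem atyp_le {δ η : ℝ} (hn : 0 < n)
    (h : (#(missing G' χ) : ℝ) ≤ 2 * η * n ^ 2) : δ * #(atyp G' χ δ) ≤ 2 * η * n := by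
  have hn' : (0 : ℝ) < n := by exact_mod_cast hn
  have h1 : (#(atyp G' χ δ) : ℝ) * (δ * n) ≤ #(missing G' χ) := by
    rw [card_missing]
    push_cast
    calc (#(atyp G' χ δ) : ℝ) * (δ * n) = ∑ x ∈ atyp G' χ δ, (δ * n : ℝ) := by
          rw [sum_const, nsmul_eq_mul]
      _ ≤ ∑ x ∈ atyp G' χ δ, (#(missAt G' χ x) : ℝ) :=
          sum_le_sum fun x hx => ((mem_filter.1 hx).2).le
      _ ≤ ∑ x, (#(missAt G' χ x) : ℝ) :=
          sum_le_sum_of_subset_of_nonneg (subset_univ _) fun x _ _ => Nat.cast_nonneg _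
  have h2 : (#(atyp G' χ δ) : ℝ) * (δ * n) ≤ 2 * η * n ^ 2 := h1.trans h
  have h3 : (δ * #(atyp G' χ δ)) * n ≤ (2 * η * n) * n := by nlinarith
  exact le_of_mul_le_mul_right h3 hn'

omit [DecidableRel H.Adj] in
/-- extending a clique of typical vertices by one vertex in each part of `J` -/
theorem extend {δ : ℝ} (hδ : 0 ≤ δ) (hG' : G' ≤ H) (J : Finset ℕ)
    (hJ : ∀ j ∈ J, (#(atyp G' χ δ) : ℝ) + (m + 1) * (δ * n) < #(part χ j)) :
    ∀ K : Finset (Fin n), H.IsClique K → (∀ x ∈ K, x ∉ atyp G' χ δ) → (∀ x ∈ K, χ x ∉ J) →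
      #K + #J ≤ m + 1 → ∃ K', K ⊆ K' ∧ H.IsNClique (#K + #J) K' := by
  induction J using Finset.induction_on with
  | empty =>
    intro K hK _ _ _
    exact ⟨K, Subset.rfl, hK, by simp⟩
  | insert r J hr ih =>
    intro K hK hKt hKJ hcard
    rw [card_insert_of_notMem hr] at hcard
    -- candidates in the part `r`
    have hex : ∃ w ∈ part χ r, w ∉ atyp G' χ δ ∧ ∀ x ∈ K, G'.Adj x w := by
      by_contra hc
      push Not at hc
      have hsub : part χ r ⊆ atyp G' χ δ ∪ K.biUnion fun x => missAt G' χ x := by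
        intro w hw
        rw [mem_union]
        by_cases hw' : w ∈ atyp G' χ δ
        · exact Or.inl hw'
        · right
          obtain ⟨x, hx, hxw⟩ := hc w hw hw'
          refine mem_biUnion.2 ⟨x, hx, ?_⟩
          unfold missAt
          rw [mem_filter]
          refine ⟨mem_univ _, ?_, hxw⟩
          intro h
          have h1 : χ w = r := (mem_filter.1 hw).2
          exact hKJ x hx (by rw [h, h1]; exact mem_insert_self r J)
      have h1 : (#(part χ r) : ℝ) ≤ #(atyp G' χ δ) + #K * (δ * n) := by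
        have h2 : #(part χ r) ≤ #(atyp G' χ δ) + ∑ x ∈ K, #(missAt G' χ x) :=
          (card_le_card hsub).trans ((card_union_le _ _).trans
            (Nat.add_le_add_left card_biUnion_le _))
        have h3 : (#(part χ r) : ℝ) ≤ #(atyp G' χ δ) + ∑ x ∈ K, (#(missAt G' χ x) : ℝ) := by
          exact_mod_cast h2
        refine h3.trans (add_le_add_right ?_ _)
        rw [← nsmul_eq_mul, ← sum_const]
        refine sum_le_sum fun x hx => ?_
        have h4 := hKt x hx
        unfold atyp at h4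
        rw [mem_filter] at h4
        push Not at h4
        exact h4 (mem_univ _)
      have h5 := hJ r (mem_insert_self r J)
      have h6 : (#K : ℝ) ≤ m + 1 := by
        have : #K ≤ m + 1 := by omega
        exact_mod_cast this
      have h7 : (0 : ℝ) ≤ δ * n := by positivity
      nlinarith [mul_le_mul_of_nonneg_right h6 h7]
    obtain ⟨w, hw1, hw2, hw3⟩ := hex
    have hwr : χ w = r := (mem_filter.1 hw1).2
    have hwK : w ∉ K := fun h => hKJ w h (by rw [hwr]; exact mem_insert_self r J)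
    obtain ⟨K', hK'1, hK'2⟩ := ih (fun j hj => hJ j (mem_insert_of_mem hj)) (insert w K) (by
        rw [coe_insert, isClique_insert]
        exact ⟨hK, fun b hb _ => (hG' (hw3 b hb)).symm⟩) (by
        intro x hx
        rw [mem_insert] at hx
        rcases hx with rfl | hx
        · exact hw2
        · exact hKt x hx) (by
        intro x hx hxJ
        rw [mem_insert] at hx
        rcases hx with rfl | hx
        · rw [hwr] at hxJ
          exact hr hxJ
        · exact hKJ x hx (mem_insert_of_mem hxJ)) (by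
        rw [card_insert_of_notMem hwK]
        omega)
    refine ⟨K', (subset_insert w K).trans hK'1, ?_⟩
    rw [card_insert_of_notMem hwK] at hK'2
    rw [card_insert_of_notMem hr]
    have : #K + (#J + 1) = #K + 1 + #J := by ring
    rw [this]
    exact hK'2

/-- an edge inside a part between typical vertices yields many cliques -/
theorem caseA {δ : ℝ} (hδ : 0 < δ) (hm : 3 ≤ m) (hχ : ∀ x, χ x < m)
    (hG' : G' ≤ H) (hbal : ∀ j ∈ range m, (1 / m - δ) * n ≤ (#(part χ j) : ℝ))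
    (hatyp : (#(atyp G' χ δ) : ℝ) ≤ 2 * δ * n) (hmiss : (#(missing G' χ) : ℝ) ≤ 2 * δ ^ 2 * n ^ 2)
    (hδm : δ * (m + 4) < 1 / m) (hn : 0 < n) (u v : Fin n) (huv : H.Adj u v) (hχuv : χ u = χ v)
    (hu : u ∉ atyp G' χ δ) (hv : v ∉ atyp G' χ δ) :
    ((1 / m - 5 * δ) ^ 2 - δ ^ 2) * n ^ 2 ≤ (#(H.cliqueFinset (m + 1)) : ℝ) := by
  have hn' : (0 : ℝ) < n := by exact_mod_cast hn
  have hm' : (3 : ℝ) ≤ m := by exact_mod_cast hm
  set T : Finset (Fin n) := univ.filter fun y =>
    χ y ≠ χ u ∧ y ∉ atyp G' χ δ ∧ G'.Adj u y ∧ G'.Adj v y with hT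
  let Tj : ℕ → Finset (Fin n) := fun j => T.filter fun y => χ y = j
  have hmissAt : ∀ x, x ∉ atyp G' χ δ → (#(missAt G' χ x) : ℝ) ≤ δ * n := by
    intro x hx
    unfold atyp at hx
    rw [mem_filter] at hx
    push Not at hx
    exact hx (mem_univ _)
  set t : ℝ := (1 / m - 5 * δ) * n with ht
  have h5 : 5 * δ ≤ 1 / m := by nlinarith
  have ht0 : 0 ≤ t := mul_nonneg (by linarith) hn'.le
  have hTj : ∀ j ∈ (range m).erase (χ u), t ≤ (#(Tj j) : ℝ) := by
    intro j hj
    obtain ⟨hj1, hj2⟩ := mem_erase.1 hj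
    have hsub : part χ j ⊆ ((Tj j ∪ atyp G' χ δ) ∪ missAt G' χ u) ∪ missAt G' χ v := by
      intro y hy
      have hyj : χ y = j := (mem_filter.1 hy).2
      simp only [mem_union]
      by_cases h1 : y ∈ atyp G' χ δ
      · exact Or.inl (Or.inl (Or.inr h1))
      by_cases h2 : G'.Adj u y
      · by_cases h3 : G'.Adj v y
        · refine Or.inl (Or.inl (Or.inl (mem_filter.2 ⟨mem_filter.2 ⟨mem_univ _, ?_, h1, h2, h3⟩,
            hyj⟩)))
          rw [hyj]; exact hj1
        · refine Or.inr (mem_filter.2 ⟨mem_univ _, ?_, h3⟩)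
          rw [hyj, ← hχuv]; exact hj1.symm
      · refine Or.inl (Or.inr (mem_filter.2 ⟨mem_univ _, ?_, h2⟩))
        rw [hyj]; exact hj1.symm
    have h1 : #(part χ j) ≤ #(Tj j) + #(atyp G' χ δ) + #(missAt G' χ u) + #(missAt G' χ v) :=
      (card_le_card hsub).trans ((card_union_le _ _).trans (Nat.add_le_add_right
        ((card_union_le _ _).trans (Nat.add_le_add_right (card_union_le _ _) _)) _))
    have h1' : (#(part χ j) : ℝ) ≤ #(Tj j) + #(atyp G' χ δ) + #(missAt G' χ u) +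
        #(missAt G' χ v) := by exact_mod_cast h1
    have h2 := hbal j hj2
    have h3 := hmissAt u hu
    have h4 := hmissAt v hv
    rw [ht]
    linarith
  -- pairs in different parts
  set Pr : Finset (Fin n × Fin n) := (T ×ˢ T).filter fun p => χ p.1 ≠ χ p.2 with hPr
  set J := (range m).erase (χ u) with hJ
  have hJcard : #J = m - 1 := by
    rw [hJ, card_erase_of_mem (mem_range.2 (hχ u)), card_range]
  have hcardoff : (#J.offDiag : ℝ) = (m - 1) * (m - 2) := by
    rw [offDiag_card, hJcard]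
    obtain ⟨k, rfl⟩ : ∃ k, m = k + 3 := ⟨m - 3, by omega⟩
    have e1 : k + 3 - 1 = k + 2 := by omega
    rw [e1]
    have e2 : (k + 2) * (k + 2) - (k + 2) = (k + 2) * (k + 1) := by
      rw [Nat.sub_eq_iff_eq_add (by nlinarith)]; ring
    rw [e2]
    push_cast
    ring
  have hPrcard : ((m : ℝ) - 1) * (m - 2) * t ^ 2 ≤ #Pr := by
    have h1 : J.offDiag.biUnion (fun p => Tj p.1 ×ˢ Tj p.2) ⊆ Pr := by
      rintro ⟨x, y⟩ hxy
      rw [mem_biUnion] at hxy
      obtain ⟨⟨j, j'⟩, h1, h2⟩ := hxy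
      rw [mem_product] at h2
      obtain ⟨h3, h4⟩ := h2
      obtain ⟨h5, h6⟩ := mem_filter.1 h3
      obtain ⟨h7, h8⟩ := mem_filter.1 h4
      rw [hPr, mem_filter, mem_product]
      refine ⟨⟨h5, h7⟩, ?_⟩
      show χ x ≠ χ y
      simp only at h6 h8
      rw [h6, h8]
      exact (mem_offDiag.1 h1).2.2
    have h2 : #(J.offDiag.biUnion (fun p => Tj p.1 ×ˢ Tj p.2)) =
        ∑ p ∈ J.offDiag, #(Tj p.1) * #(Tj p.2) := by
      rw [card_biUnion]
      · refine sum_congr rfl fun p _ => card_product _ _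
      · rintro ⟨i, i'⟩ _ ⟨j, j'⟩ _ hij
        show Disjoint _ _
        rw [Finset.disjoint_left]
        rintro ⟨x, y⟩ hx hy
        rw [mem_product] at hx hy
        apply hij
        have e1 : i = j := (mem_filter.1 hx.1).2.symm.trans (mem_filter.1 hy.1).2
        have e2 : i' = j' := (mem_filter.1 hx.2).2.symm.trans (mem_filter.1 hy.2).2
        rw [e1, e2]
    have h3 : (∑ p ∈ J.offDiag, (#(Tj p.1) : ℝ) * #(Tj p.2)) ≤ #Pr := by
      have := card_le_card h1
      rw [h2] at this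
      exact_mod_cast this
    refine le_trans ?_ h3
    rw [← hcardoff, ← nsmul_eq_mul, ← sum_const]
    refine sum_le_sum fun p hp => ?_
    obtain ⟨h4, h5, _⟩ := mem_offDiag.1 hp
    rw [sq]
    exact mul_le_mul (hTj _ h4) (hTj _ h5) ht0 (Nat.cast_nonneg _)
  set Q := Pr.filter fun p => G'.Adj p.1 p.2 with hQ
  have hPQ : #Pr ≤ #Q + #(missing G' χ) := by
    refine (card_le_card ?_).trans (card_union_le _ _)
    intro p hp
    rw [mem_union]
    by_cases h : G'.Adj p.1 p.2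
    · exact Or.inl (mem_filter.2 ⟨hp, h⟩)
    · exact Or.inr (mem_filter.2 ⟨mem_univ _, (mem_filter.1 hp).2, h⟩)
  -- each pair of `Q` is in a clique containing `u` and `v`
  have hne_uv : u ≠ v := H.ne_of_adj huv
  have hcl : ∀ p ∈ Q, ∃ K ∈ H.cliqueFinset (m + 1), u ∈ K ∧ v ∈ K ∧ p.1 ∈ K ∧ p.2 ∈ K := by
    rintro ⟨x, y⟩ hxy
    obtain ⟨h1, h2⟩ := mem_filter.1 hxy
    obtain ⟨h3, h4⟩ := mem_filter.1 h1
    rw [mem_product] at h3
    obtain ⟨-, hx1, hx2, hx3, hx4⟩ := mem_filter.1 h3.1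
    obtain ⟨-, hy1, hy2, hy3, hy4⟩ := mem_filter.1 h3.2
    simp only at h2 h4 hx1 hx2 hx3 hx4 hy1 hy2 hy3 hy4
    have hK0 : H.IsClique ({u, v, x, y} : Finset (Fin n)) := by
      simp only [coe_insert, coe_singleton, isClique_insert, isClique_singleton,
        Set.mem_insert_iff, Set.mem_singleton_iff, forall_eq_or_imp, forall_eq, true_and]
      exact ⟨⟨fun _ => hG' h2, fun _ => hG' hx4, fun _ => hG' hy4⟩,
        fun _ => huv, fun _ => hG' hx3, fun _ => hG' hy3⟩
    have hcard4 : #({u, v, x, y} : Finset (Fin n)) = 4 := by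
      have e1 : x ≠ y := G'.ne_of_adj h2
      have e2 : v ≠ x := G'.ne_of_adj hx4
      have e3 : v ≠ y := G'.ne_of_adj hy4
      have e4 : u ≠ x := G'.ne_of_adj hx3
      have e5 : u ≠ y := G'.ne_of_adj hy3
      rw [card_insert_of_notMem, card_insert_of_notMem, card_insert_of_notMem, card_singleton]
      · simpa using e1
      · simp [e2, e3]
      · simp [hne_uv, e4, e5]
    let J' := (((range m).erase (χ u)).erase (χ x)).erase (χ y)
    have hJ'card : #J' = m - 3 := by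
      rw [card_erase_of_mem, card_erase_of_mem, card_erase_of_mem, card_range]
      · omega
      · exact mem_range.2 (hχ u)
      · exact mem_erase.2 ⟨hx1, mem_range.2 (hχ x)⟩
      · exact mem_erase.2 ⟨fun h => h4 h.symm, mem_erase.2 ⟨hy1, mem_range.2 (hχ y)⟩⟩
    obtain ⟨K', hK'1, hK'2⟩ := extend H G' χ hδ.le hG' J' (m := m) (by
      intro j hj
      have hjr : j ∈ range m := mem_of_mem_erase (mem_of_mem_erase (mem_of_mem_erase hj))
      have h6 := hbal j hjr
      have h7 : (δ * (m + 4)) * n < (1 / m) * n := mul_lt_mul_of_pos_right hδm hn'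
      nlinarith) ({u, v, x, y} : Finset (Fin n)) hK0 (by
      intro w hw
      simp only [mem_insert, mem_singleton] at hw
      rcases hw with rfl | rfl | rfl | rfl
      · exact hu
      · exact hv
      · exact hx2
      · exact hy2) (by
      intro w hw hwJ
      have h8 := mem_erase.1 hwJ
      have h9 := mem_erase.1 h8.2
      have h10 := mem_erase.1 h9.2
      simp only [mem_insert, mem_singleton] at hw
      rcases hw with rfl | rfl | rfl | rfl
      · exact h10.1 rfl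
      · exact h10.1 hχuv.symm
      · exact h9.1 rfl
      · exact h8.1 rfl) (by rw [hcard4, hJ'card]; omega)
    refine ⟨K', ?_, hK'1 (by simp), hK'1 (by simp), hK'1 (by simp), hK'1 (by simp)⟩
    rw [mem_cliqueFinset_iff]
    rw [hcard4, hJ'card] at hK'2
    have : 4 + (m - 3) = m + 1 := by omega
    rwa [this] at hK'2
  have hQcard : #Q ≤ #(H.cliqueFinset (m + 1)) * ((m - 1) * (m - 1) - (m - 1)) := by
    have hsub : Q ⊆ ((H.cliqueFinset (m + 1)).filter fun K => u ∈ K ∧ v ∈ K).biUnion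
        fun K => ((K.erase u).erase v).offDiag := by
      intro p hp
      obtain ⟨K, hK, hK1, hK2, hK3, hK4⟩ := hcl p hp
      obtain ⟨h1, h2⟩ := mem_filter.1 hp
      obtain ⟨h3, h4⟩ := mem_filter.1 h1
      rw [mem_product] at h3
      have hx1 := (mem_filter.1 h3.1).2.1
      have hy1 := (mem_filter.1 h3.2).2.1
      rw [mem_biUnion]
      refine ⟨K, mem_filter.2 ⟨hK, hK1, hK2⟩, ?_⟩
      rw [mem_offDiag]
      refine ⟨mem_erase.2 ⟨?_, mem_erase.2 ⟨?_, hK3⟩⟩, mem_erase.2 ⟨?_, mem_erase.2 ⟨?_, hK4⟩⟩, ?_⟩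
      · exact fun h => hx1 (by rw [h, hχuv])
      · exact fun h => hx1 (by rw [h])
      · exact fun h => hy1 (by rw [h, hχuv])
      · exact fun h => hy1 (by rw [h])
      · exact G'.ne_of_adj h2
    refine (card_le_card hsub).trans ((card_biUnion_le_card_mul _ _ _ ?_).trans
      (Nat.mul_le_mul_right _ (card_filter_le _ _)))
    intro K hK
    obtain ⟨hK, hK1, hK2⟩ := mem_filter.1 hK
    rw [mem_cliqueFinset_iff] at hK
    rw [offDiag_card, card_erase_of_mem (mem_erase.2 ⟨hne_uv.symm, hK2⟩), card_erase_of_mem hK1,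
      hK.card_eq]
    simp
  have hcoef : (((m - 1) * (m - 1) - (m - 1) : ℕ) : ℝ) = (m - 1) * (m - 2) := by
    rw [← hcardoff, offDiag_card, hJcard]
  have hQ' : (#Q : ℝ) ≤ #(H.cliqueFinset (m + 1)) * (((m : ℝ) - 1) * (m - 2)) := by
    rw [← hcoef]
    exact_mod_cast hQcard
  have hPQ' : (#Pr : ℝ) ≤ #Q + #(missing G' χ) := by exact_mod_cast hPQ
  have hM2 : (2 : ℝ) ≤ ((m : ℝ) - 1) * (m - 2) := by nlinarith
  set M2 : ℝ := ((m : ℝ) - 1) * (m - 2) with hM2def
  have hfin : M2 * t ^ 2 - M2 * (δ ^ 2 * n ^ 2) ≤ M2 * #(H.cliqueFinset (m + 1)) := by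
    have h1 : 2 * (δ ^ 2 * n ^ 2) ≤ M2 * (δ ^ 2 * n ^ 2) :=
      mul_le_mul_of_nonneg_right hM2 (by positivity)
    nlinarith
  have hfin2 : t ^ 2 - δ ^ 2 * n ^ 2 ≤ #(H.cliqueFinset (m + 1)) := by
    have hM2pos : 0 < M2 := by linarith
    have : M2 * (t ^ 2 - δ ^ 2 * n ^ 2) ≤ M2 * #(H.cliqueFinset (m + 1)) := by linarith
    exact le_of_mul_le_mul_left this hM2pos
  have : ((1 / m - 5 * δ) ^ 2 - δ ^ 2) * (n : ℝ) ^ 2 = t ^ 2 - δ ^ 2 * n ^ 2 := by
    rw [ht]; ring
  rw [this]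
  exact hfin2

/-- if every edge inside a part has an atypical end then there are many cliques -/
theorem caseB {δ : ℝ} (hδ : 0 < δ) (hδ1 : δ ≤ 1) (hm : 3 ≤ m) (hχ : ∀ x, χ x < m)
    (hG' : G' ≤ H) (hatyp : (#(atyp G' χ δ) : ℝ) ≤ 2 * δ * n)
    (hI : (#(univ.filter fun p : Fin n × Fin n => G'.Adj p.1 p.2 ∧ χ p.1 = χ p.2) : ℝ) ≤
      δ ^ 2 * n ^ 2)
    (hE : (1 - 1 / m - δ ^ 2) * n ^ 2 ≤ (E2 G' : ℝ))
    (hcov : ∀ x y, H.Adj x y → ∃ K ∈ H.cliqueFinset (m + 1), x ∈ K ∧ y ∈ K)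
    (hno : ∀ u v, H.Adj u v → χ u = χ v → u ∈ atyp G' χ δ ∨ v ∈ atyp G' χ δ) :
    (1 / m ^ 2 - δ) * n ^ 2 ≤ (#(H.cliqueFinset (m + 1)) : ℝ) := by
  have hm' : (3 : ℝ) ≤ m := by exact_mod_cast hm
  set W := atyp G' χ δ with hW
  set Q : Finset (Fin n × Fin n) := univ.filter fun p =>
    G'.Adj p.1 p.2 ∧ p.1 ∉ W ∧ p.2 ∉ W ∧ χ p.1 ≠ χ p.2 with hQ
  set I := univ.filter fun p : Fin n × Fin n => G'.Adj p.1 p.2 ∧ χ p.1 = χ p.2 with hIdef
  have h1 : E2 G' ≤ #Q + #I + #W * n + n * #W := by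
    have hsub : (univ.filter fun p : Fin n × Fin n => G'.Adj p.1 p.2) ⊆
        ((Q ∪ I) ∪ (W ×ˢ univ)) ∪ (univ ×ˢ W) := by
      intro p hp
      have hp' := (mem_filter.1 hp).2
      simp only [mem_union, mem_product, mem_univ, and_true, true_and]
      by_cases h2 : p.1 ∈ W
      · exact Or.inl (Or.inr h2)
      by_cases h3 : p.2 ∈ W
      · exact Or.inr h3
      by_cases h4 : χ p.1 = χ p.2
      · exact Or.inl (Or.inl (Or.inr (mem_filter.2 ⟨mem_univ _, hp', h4⟩)))
      · exact Or.inl (Or.inl (Or.inl (mem_filter.2 ⟨mem_univ _, hp', h2, h3, h4⟩)))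
    unfold E2
    refine (card_le_card hsub).trans ((card_union_le _ _).trans ?_)
    refine (Nat.add_le_add_right ((card_union_le _ _).trans
      (Nat.add_le_add_right (card_union_le _ _) _)) _).trans ?_
    rw [card_product, card_product, card_univ, Fintype.card_fin]
  have h1' : (E2 G' : ℝ) ≤ #Q + #I + #W * n + n * #W := by exact_mod_cast h1
  have h2 : #Q ≤ #(H.cliqueFinset (m + 1)) * (m * m - m) := by
    have hsub : Q ⊆ ((H.cliqueFinset (m + 1)).filter fun K => ∃ w ∈ K, w ∈ W).biUnion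
        fun K => (K \ W).offDiag := by
      intro p hp
      obtain ⟨-, hp1, hp2, hp3, hp4⟩ := mem_filter.1 hp
      obtain ⟨K, hK, hK1, hK2⟩ := hcov _ _ (hG' hp1)
      rw [mem_biUnion]
      refine ⟨K, mem_filter.2 ⟨hK, ?_⟩, ?_⟩
      · rw [mem_cliqueFinset_iff] at hK
        obtain ⟨x, hx, y, hy, hxy, hxy'⟩ := exists_ne_map_eq_of_card_lt_of_maps_to
          (s := K) (t := range m) (f := χ) (by rw [hK.card_eq, card_range]; omega)
          (fun x _ => mem_coe.2 (mem_range.2 (hχ x)))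
        have hadj : H.Adj x y := hK.isClique hx hy hxy
        rcases hno x y hadj hxy' with h | h
        · exact ⟨x, hx, h⟩
        · exact ⟨y, hy, h⟩
      · rw [mem_offDiag]
        exact ⟨mem_sdiff.2 ⟨hK1, hp2⟩, mem_sdiff.2 ⟨hK2, hp3⟩, G'.ne_of_adj hp1⟩
    refine (card_le_card hsub).trans ((card_biUnion_le_card_mul _ _ _ ?_).trans
      (Nat.mul_le_mul_right _ (card_filter_le _ _)))
    intro K hK
    obtain ⟨hK, w, hw1, hw2⟩ := mem_filter.1 hK
    rw [mem_cliqueFinset_iff] at hK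
    rw [offDiag_card]
    have h3 : #(K \ W) ≤ m := by
      have h4 : #(K \ W) < #K := card_lt_card ⟨sdiff_subset, fun h =>
        (mem_sdiff.1 (h hw1)).2 hw2⟩
      rw [hK.card_eq] at h4
      omega
    have h5 : ∀ a b : ℕ, a ≤ b → a * a - a ≤ b * b - b := by
      intro a b hab
      rcases Nat.eq_zero_or_pos a with rfl | ha
      · simp
      · obtain ⟨c, rfl⟩ := Nat.exists_eq_add_of_le hab
        have e1 : a * a - a = a * (a - 1) := by rw [Nat.mul_sub, mul_one]
        have e2 : (a + c) * (a + c) - (a + c) = (a + c) * (a + c - 1) := by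
          rw [Nat.mul_sub, mul_one]
        rw [e1, e2]
        exact Nat.mul_le_mul hab (by omega)
    exact h5 _ _ h3
  have h2' : (#Q : ℝ) ≤ #(H.cliqueFinset (m + 1)) * ((m : ℝ) * (m - 1)) := by
    have h3 : ((m * m - m : ℕ) : ℝ) = (m : ℝ) * (m - 1) := by
      rw [Nat.cast_sub (by nlinarith)]
      push_cast
      ring
    rw [← h3]
    exact_mod_cast h2
  have hn0 : (0 : ℝ) ≤ n := Nat.cast_nonneg _
  have h6 : (1 - 1 / m - δ ^ 2) * (n : ℝ) ^ 2 ≤ #(H.cliqueFinset (m + 1)) * ((m : ℝ) * (m - 1)) +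
      δ ^ 2 * n ^ 2 + 4 * δ * n ^ 2 := by
    have h7 : (#W : ℝ) * n ≤ 2 * δ * n * n := mul_le_mul_of_nonneg_right hatyp hn0
    nlinarith
  have hMpos : (6 : ℝ) ≤ (m : ℝ) * (m - 1) := by nlinarith
  set M3 : ℝ := (m : ℝ) * (m - 1) with hM3
  have h8 : (1 - 1 / (m : ℝ)) = M3 * (1 / m ^ 2) := by
    rw [hM3]
    field_simp
  rw [h8] at h6
  have h9 : M3 * ((1 / m ^ 2 - δ) * n ^ 2) ≤ M3 * #(H.cliqueFinset (m + 1)) := by
    have h10 : (0 : ℝ) ≤ δ * n ^ 2 := by positivity
    have h11 : 6 * (δ * n ^ 2) ≤ M3 * (δ * n ^ 2) := mul_le_mul_of_nonneg_right hMpos h10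
    have h12 : δ ^ 2 * (n : ℝ) ^ 2 ≤ δ * n ^ 2 := by
      have : δ ^ 2 ≤ δ := by nlinarith
      exact mul_le_mul_of_nonneg_right this (by positivity)
    nlinarith
  exact le_of_mul_le_mul_left h9 (by linarith)

end

/-- A graph in which every edge lies in a clique with `m + 1` vertices and which contains a
`K_{m+1}`-free graph with almost as many edges as the Turán graph has at least
`(1 / m² - κ) n²` cliques with `m + 1` vertices. -/
theorem near_turan (m : ℕ) (hm : 3 ≤ m) (κ : ℝ) (hκ : 0 < κ) :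
    ∃ η : ℝ, 0 < η ∧ ∀ n : ℕ, 0 < n → ∀ (H G' : SimpleGraph (Fin n)) [DecidableRel H.Adj]
      [DecidableRel G'.Adj], G' ≤ H → G'.CliqueFree (m + 1) →
      (∀ x y, H.Adj x y → ∃ K ∈ H.cliqueFinset (m + 1), x ∈ K ∧ y ∈ K) →
      (1 - 1 / m - η) * n ^ 2 ≤ (E2 G' : ℝ) →
      (1 / m ^ 2 - κ) * n ^ 2 ≤ (#(H.cliqueFinset (m + 1)) : ℝ) := by
  have hm' : (3 : ℝ) ≤ m := by exact_mod_cast hm
  have hmpos : (0 : ℝ) < m := by linarith
  set δ : ℝ := min (κ / 11) (1 / (m * (m + 5))) with hδdef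
  have hδ : 0 < δ := lt_min (by positivity) (by positivity)
  have hδκ : 11 * δ ≤ κ := by
    have := min_le_left (κ / 11) (1 / ((m : ℝ) * (m + 5)))
    linarith
  have hδ2 : δ ≤ 1 / (m * (m + 5)) := min_le_right _ _
  have hδm : δ * (m + 4) < 1 / m := by
    have h1 : δ * (m + 5) ≤ 1 / m := by
      have h2 := mul_le_mul_of_nonneg_right hδ2 (show (0 : ℝ) ≤ m + 5 by linarith)
      refine h2.trans (le_of_eq ?_)
      field_simp
    nlinarith
  have hinv : 1 / (m : ℝ) ≤ 1 := by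
    rw [div_le_one hmpos]; linarith
  have hδ1 : δ ≤ 1 := by nlinarith
  refine ⟨δ ^ 2, by positivity, ?_⟩
  intro n hn H G' _ _ hG' hfree hcov hE
  have hn' : (0 : ℝ) < n := by exact_mod_cast hn
  obtain ⟨χ, hχ, hF⟩ := furedi G' m univ (fun s _ => hfree s)
  simp only [univ_product_univ, mem_univ, forall_const] at hF hχ
  obtain ⟨hb1, hb2, hb3⟩ := balanced G' χ (by omega : 0 < m) hχ hF hE
  have hbal : ∀ j ∈ range m, (1 / m - δ) * n ≤ (#(part χ j) : ℝ) := by
    intro j hj
    have h1 := hb1 j hj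
    have h2 : |(#(part χ j) : ℝ) - n / m| ≤ δ * n := by
      rw [← mul_pow] at h1
      exact abs_le_of_sq_le_sq h1 (by positivity)
    have h3 := (abs_le.1 h2).1
    have h4 : (1 / m - δ) * (n : ℝ) = n / m - δ * n := by ring
    rw [h4]
    linarith
  have hatyp : (#(atyp G' χ δ) : ℝ) ≤ 2 * δ * n := by
    have h1 := atyp_le G' χ (δ := δ) hn hb2
    have h2 : δ * #(atyp G' χ δ) ≤ δ * (2 * δ * n) := by nlinarith
    exact le_of_mul_le_mul_left h2 hδ
  by_cases hcase : ∃ u v, H.Adj u v ∧ χ u = χ v ∧ u ∉ atyp G' χ δ ∧ v ∉ atyp G' χ δ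
  · obtain ⟨u, v, huv, hχuv, hu, hv⟩ := hcase
    have h1 := caseA H G' χ hδ hm hχ hG' hbal hatyp hb2 hδm hn u v huv hχuv hu hv
    refine le_trans ?_ h1
    refine mul_le_mul_of_nonneg_right ?_ (by positivity)
    have h2 : (1 / (m : ℝ) - 5 * δ) ^ 2 - δ ^ 2 = 1 / m ^ 2 - 10 * δ * (1 / m) + 24 * δ ^ 2 := by
      ring
    rw [h2]
    have h3 : 10 * δ * (1 / (m : ℝ)) ≤ 10 * δ := by nlinarith
    nlinarith [sq_nonneg δ]
  · push Not at hcase
    have h1 := caseB H G' χ hδ hδ1 hm hχ hG' hatyp hb3 hE hcov (by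
      intro u v huv hχuv
      by_contra hc
      push Not at hc
      exact hc.2 (hcase u v huv hχuv hc.1))
    refine le_trans ?_ h1
    refine mul_le_mul_of_nonneg_right ?_ (by positivity)
    linarith

end Pool.Agent.Helper25_Dom
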