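import Mathlib
import Pool.Agent.Helper25_Dom.NearTuran

/-!
# The main inequality
-/

set_option autoImplicit false

open Finset SimpleGraph

namespace Pool.Agent.Helper25_Dom

/-- counting edges of a clique-free subgraph through the cliques of the big graph -/
theorem E2_le_cliques {n m : ℕ} (H G' : SimpleGraph (Fin n)) [DecidableRel H.Adj]
    [DecidableRel G'.Adj] (hG' : G' ≤ H) (hfree : G'.CliqueFree (m + 1))
    (hcov : ∀ x y, H.Adj x y → ∃ K ∈ H.cliqueFinset (m + 1), x ∈ K ∧ y ∈ K) :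
    E2 G' ≤ #(H.cliqueFinset (m + 1)) * ((m + 1) * (m + 1) - (m + 1) - 2) := by
  have hsub : (univ.filter fun p : Fin n × Fin n => G'.Adj p.1 p.2) ⊆
      (H.cliqueFinset (m + 1)).biUnion fun K => K.offDiag.filter fun p => G'.Adj p.1 p.2 := by
    intro p hp
    have hp' := (mem_filter.1 hp).2
    obtain ⟨K, hK, h1, h2⟩ := hcov _ _ (hG' hp')
    exact mem_biUnion.2 ⟨K, hK, mem_filter.2 ⟨mem_offDiag.2 ⟨h1, h2, G'.ne_of_adj hp'⟩, hp'⟩⟩
  refine (card_le_card hsub).trans (card_biUnion_le_card_mul _ _ _ ?_)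
  intro K hK
  rw [mem_cliqueFinset_iff] at hK
  -- a pair of `K` that is not an edge of `G'`
  have h1 : ∃ x ∈ K, ∃ y ∈ K, x ≠ y ∧ ¬ G'.Adj x y := by
    by_contra hc
    push Not at hc
    refine hfree K ⟨?_, hK.card_eq⟩
    intro x hx y hy hxy
    exact hc x hx y hy hxy
  obtain ⟨x, hx, y, hy, hxy, hnadj⟩ := h1
  have h2 : (K.offDiag.filter fun p => G'.Adj p.1 p.2) ⊆ (K.offDiag.erase (x, y)).erase (y, x) := by
    intro p hp
    obtain ⟨hp1, hp2⟩ := mem_filter.1 hp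
    refine mem_erase.2 ⟨?_, mem_erase.2 ⟨?_, hp1⟩⟩
    · rintro rfl
      exact hnadj hp2.symm
    · rintro rfl
      exact hnadj hp2
  refine (card_le_card h2).trans ?_
  rw [card_erase_of_mem, card_erase_of_mem, offDiag_card, hK.card_eq]
  · omega
  · exact mem_offDiag.2 ⟨hx, hy, hxy⟩
  · refine mem_erase.2 ⟨?_, mem_offDiag.2 ⟨hy, hx, hxy.symm⟩⟩
    intro h
    rw [Prod.mk.injEq] at h
    exact hxy h.2

theorem main_ineq (m : ℕ) (hm : 3 ≤ m) :
    ∃ ε : ℝ, 0 < ε ∧ ∃ N : ℕ, ∀ n : ℕ, N ≤ n → ∀ (H : SimpleGraph (Fin n)) [DecidableRel H.Adj],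
      (∀ x y, H.Adj x y → ∃ K ∈ H.cliqueFinset (m + 1), x ∈ K ∧ y ∈ K) →
      (E2 H : ℝ) - 2 * #(H.cliqueFinset (m + 1)) ≤
        (1 - ((m : ℝ) + 4) / (m * (m + 2)) - ε) * (n * (n - 1)) := by
  have hm' : (3 : ℝ) ≤ m := by exact_mod_cast hm
  have hmpos : (0 : ℝ) < m := by linarith
  set g : ℝ := 1 / ((m : ℝ) ^ 2 * (m + 2)) with hg
  have hgpos : 0 < g := by positivity
  obtain ⟨η, hη, hNT⟩ := near_turan m hm g hgpos
  set εr : ℝ := min (η / 4) g with hεr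
  have hεrpos : 0 < εr := lt_min (by linarith) hgpos
  obtain ⟨c, hc, N1, hrem⟩ := removal (m + 1) εr hεrpos
  set ε : ℝ := min (η / 4) (g / 2) with hε
  have hεpos : 0 < ε := lt_min (by linarith) (by linarith)
  set c0 : ℝ := ((m : ℝ) + 4) / (m * (m + 2)) with hc0
  have hc0le : c0 ≤ 1 / 2 := by
    rw [hc0, div_le_div_iff₀ (by positivity) (by norm_num)]
    nlinarith
  have hc0pos : 0 < c0 := by positivity
  have hgle : g ≤ 1 / 45 := by
    rw [hg]
    apply one_div_le_one_div_of_le (by norm_num)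
    have : (9 : ℝ) ≤ (m : ℝ) ^ 2 := by nlinarith
    nlinarith
  have hεle : ε ≤ 1 / 90 := by
    have := min_le_right (η / 4) (g / 2)
    linarith
  refine ⟨ε, hεpos, max (max N1 (⌈1 / c⌉₊ + 1)) (⌈1 / ε⌉₊ + 1), ?_⟩
  intro n hn H _ hcov
  have hn1 : N1 ≤ n := (le_max_left _ _).trans ((le_max_left _ _).trans hn)
  have hn2 : ⌈1 / c⌉₊ + 1 ≤ n := (le_max_right _ _).trans ((le_max_left _ _).trans hn)
  have hn3 : ⌈1 / ε⌉₊ + 1 ≤ n := (le_max_right _ _).trans hn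
  have hnpos : 0 < n := by omega
  have hn' : (1 : ℝ) ≤ n := by exact_mod_cast hnpos
  have hcn : 1 < c * n := by
    have h1 : 1 / c ≤ ⌈1 / c⌉₊ := Nat.le_ceil _
    have h2 : ((⌈1 / c⌉₊ : ℕ) : ℝ) + 1 ≤ n := by exact_mod_cast hn2
    have h3 : 1 / c < n := by linarith
    rw [div_lt_iff₀ hc] at h3
    linarith
  have hεn : 1 ≤ ε * n := by
    have h1 : 1 / ε ≤ ⌈1 / ε⌉₊ := Nat.le_ceil _
    have h2 : ((⌈1 / ε⌉₊ : ℕ) : ℝ) + 1 ≤ n := by exact_mod_cast hn3
    have h3 : 1 / ε ≤ n := by linarith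
    rw [div_le_iff₀ hεpos] at h3
    linarith
  -- it suffices to have the inequality with `n ^ 2` and `2 ε`
  suffices hsuff : (E2 H : ℝ) - 2 * #(H.cliqueFinset (m + 1)) ≤ (1 - c0 - 2 * ε) * n ^ 2 by
    refine hsuff.trans ?_
    have h1 : (1 - c0 - ε) * n ≤ ε * n ^ 2 := by nlinarith
    nlinarith
  set k : ℝ := (#(H.cliqueFinset (m + 1)) : ℝ) with hk
  have hk0 : 0 ≤ k := Nat.cast_nonneg _
  have hE2n : (E2 H : ℝ) ≤ n ^ 2 := by
    have h1 : E2 H ≤ n ^ 2 := by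
      unfold E2
      refine (card_filter_le _ _).trans ?_
      rw [card_univ, Fintype.card_prod, Fintype.card_fin, sq]
    exact_mod_cast h1
  by_cases hkbig : (n : ℝ) ^ 2 < k
  · have : (0 : ℝ) ≤ (1 - c0 - 2 * ε) * n ^ 2 := by
      apply mul_nonneg _ (by positivity)
      linarith
    linarith
  push Not at hkbig
  have hkc : k < c * (n : ℝ) ^ (m + 1) := by
    have h1 : (n : ℝ) ^ 2 ≤ n ^ m := pow_le_pow_right₀ hn' (by omega)
    have h2 : (n : ℝ) ^ m < c * n * n ^ m := by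
      have : (0 : ℝ) < (n : ℝ) ^ m := by positivity
      nlinarith
    have h3 : c * (n : ℝ) ^ (m + 1) = c * n * n ^ m := by ring
    rw [h3]
    linarith
  obtain ⟨G', _, hG', hfree, hE⟩ := hrem n hn1 H hkc
  have hεr1 : εr ≤ η / 4 := min_le_left _ _
  have hεr2 : εr ≤ g := min_le_right _ _
  have hε1 : ε ≤ η / 4 := min_le_left _ _
  have hε2 : ε ≤ g / 2 := min_le_right _ _
  have hnn : (0 : ℝ) < (n : ℝ) ^ 2 := by positivity
  by_cases hcase : (1 - 1 / m - η) * (n : ℝ) ^ 2 ≤ E2 G'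
  · -- close to the Turán graph
    have h1 := hNT n hnpos H G' hG' hfree hcov hcase
    have h2 := turan_E2 G' (by omega : 0 < m) hfree
    have h3 : 1 - 1 / (m : ℝ) - 2 * (1 / m ^ 2) = 1 - c0 - 4 * g := by
      rw [hc0, hg]
      field_simp
      ring
    have h4 : (E2 H : ℝ) - 2 * k ≤ ((1 - 1 / m) + εr - 2 * (1 / m ^ 2 - g)) * n ^ 2 := by
      have : ((1 - 1 / (m : ℝ)) + εr - 2 * (1 / m ^ 2 - g)) * (n : ℝ) ^ 2 =
        (1 - 1 / m) * n ^ 2 + εr * n ^ 2 - 2 * ((1 / m ^ 2 - g) * n ^ 2) := by ring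
      rw [this]
      linarith
    refine h4.trans (mul_le_mul_of_nonneg_right ?_ hnn.le)
    linarith
  · push Not at hcase
    -- few edges
    have h1 := E2_le_cliques H G' hG' hfree hcov
    have hcoef : (((m + 1) * (m + 1) - (m + 1) - 2 : ℕ) : ℝ) = ((m : ℝ) - 1) * (m + 2) := by
      have e1 : (m + 1) * (m + 1) - (m + 1) - 2 = m * (m + 1) - 2 := by
        have : (m + 1) * (m + 1) = m * (m + 1) + (m + 1) := by ring
        omega
      rw [e1, Nat.cast_sub (by nlinarith)]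
      push_cast
      ring
    have h2 : (E2 G' : ℝ) ≤ k * (((m : ℝ) - 1) * (m + 2)) := by
      rw [← hcoef, hk]
      exact_mod_cast h1
    set D : ℝ := ((m : ℝ) - 1) * (m + 2) with hD
    have hD10 : (10 : ℝ) ≤ D := by nlinarith
    have h3 : (E2 G' : ℝ) * (2 / D) ≤ 2 * k := by
      rw [mul_div_assoc', div_le_iff₀ (by linarith)]
      linarith
    have h4 : (E2 H : ℝ) - 2 * k ≤ E2 G' * (1 - 2 / D) + εr * n ^ 2 := by
      have : (E2 G' : ℝ) * (1 - 2 / D) = E2 G' - E2 G' * (2 / D) := by ring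
      rw [this]
      linarith
    have hD5 : 2 / D ≤ 1 / 5 := by
      rw [div_le_div_iff₀ (by linarith) (by norm_num)]
      linarith
    have hD0 : 0 < 2 / D := by positivity
    have h5 : (E2 G' : ℝ) * (1 - 2 / D) ≤ (1 - 1 / m - η) * (n : ℝ) ^ 2 * (1 - 2 / D) :=
      mul_le_mul_of_nonneg_right hcase.le (by linarith)
    have h6 : (1 - 1 / (m : ℝ)) * (1 - 2 / D) = 1 - c0 := by
      have hm1 : (m : ℝ) - 1 ≠ 0 := by linarith
      rw [hc0, hD]
      field_simp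
      ring
    have h7 : (1 - 1 / m - η) * (n : ℝ) ^ 2 * (1 - 2 / D) =
        (1 - c0 - η * (1 - 2 / D)) * n ^ 2 := by
      rw [← h6]; ring
    rw [h7] at h5
    have h8 : (E2 H : ℝ) - 2 * k ≤ (1 - c0 - η * (1 - 2 / D) + εr) * n ^ 2 := by
      have : (1 - c0 - η * (1 - 2 / D) + εr) * (n : ℝ) ^ 2 =
        (1 - c0 - η * (1 - 2 / D)) * n ^ 2 + εr * n ^ 2 := by ring
      rw [this]
      linarith
    refine h8.trans (mul_le_mul_of_nonneg_right ?_ hnn.le)
    have h9 : η * (4 / 5) ≤ η * (1 - 2 / D) := mul_le_mul_of_nonneg_left (by linarith) hη.le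
    linarith

end Pool.Agent.Helper25_Dom
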